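import Pool.Agent.TH6.PF.BassT

set_option autoImplicit false

/-! The Bass trace conjecture, over every commutative domain and for every group, for all finitely
generated projective modules that have a presentation matrix whose support pattern has operator norm
less than `3 / √2`. -/

namespace Pool.Agent.Results.MP_7903c7_al.ThinPresentations

open TH57.Thr TH6.PF Matrix

theorem result (R : Type) [CommRing R] [IsDomain R] (G : Type) [Group G] (c : ℝ) (hc0 : 0 < c)
    (hc : c ^ 2 < 9 / 2) (k m n : ℕ)
    (A : Matrix (Fin k) (Fin k) (MonoidAlgebra R G)) (hA : A * A = A)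
    (M : Matrix (Fin m) (Fin n) (MonoidAlgebra R G)) (hM : ThinLE M c)
    (φ : LinearMap.range A.vecMulLinear ≃ₗ[MonoidAlgebra R G] Coker M)
    (g : G) (hg : ¬ IsUnit ((orderOf g : ℕ) : R)) :
    ∑ i : Fin k, ∑ᶠ (h : G) (_ : IsConj h g), (A i i).coeff h = 0 :=
  bass_thin_module c hc0 hc A hA M hM φ g hg

end Pool.Agent.Results.MP_7903c7_al.ThinPresentations
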